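import Pool.Agent.H23.RDom1
import Pool.Agent.H25.FPT2

set_option autoImplicit false

namespace Pool.Agent.Results.MP_918064_lc.Dich
open Pool.Agent.H11.PT Pool.Agent.H25.FP Pool.Agent.H23.Ori Pool.Agent.H23.RDom List

variable {y : Inst} {i j u v w : ℕ}

theorem mono (h : i ≤ j) (a : Near y i u v) : Near y j u v := by
  induction h with
  | refl => exact a
  | step _ ih => exact .inl ih

theorem step (a : Near y (j + 1) u v) : u = v ∨ ∃ w, Adj y u w ∧ Near y j w v := by
  induction j with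
  | zero => exact a
  | succ j ih => exact a.elim (fun a => (ih a).imp_right fun ⟨w, b, c⟩ => ⟨w, b, .inl c⟩) .inr

theorem trans (a : Near y i u v) (b : Near y j v w) : Near y (i + j) u w := by
  induction i generalizing u with
  | zero => rw [show u = v from a, zero_add]; exact b
  | succ i ih =>
    rw [add_right_comm]
    exact a.imp ih fun ⟨x, c, d⟩ => ⟨x, c, ih d⟩

theorem one (h : Adj y u v) : Near y 1 u v := .inr ⟨v, h, rfl⟩
theorem asy (h : Adj y u v) : Adj y v u := ⟨h.2.1, h.1, Ne.symm h.2.2.1, h.2.2.2.symm⟩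

theorem symm (a : Near y j u v) : Near y j v u := by
  induction j generalizing u with
  | zero => exact Eq.symm a
  | succ j ih => exact a.elim (fun a => .inl (ih a)) fun ⟨x, c, d⟩ => trans (ih d) (one (asy c))

theorem near_pt (j : ℕ) : PT fun p : Inst × ℕ × ℕ => dc (Near p.1 j p.2.1 p.2.2) := by
  induction j with
  | zero => unfold Near; fun_prop
  | succ j ih =>
    refine dc_of (p := fun p : Inst × ℕ × ℕ => Near p.1 j p.2.1 p.2.2 ∨ ∃ w, w ∈ range p.1.1 ∧
      (Adj p.1 p.2.1 w ∧ Near p.1 j w p.2.2)) (dcOr ih (dcEx (by fun_prop) (dcAnd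
        (by unfold Adj; fun_prop) (ih.comp (g := fun q : (Inst × ℕ × ℕ) × ℕ => (q.1.1, q.2, q.1.2.2))
          (by fun_prop))))) fun p => or_congr_right (exists_congr fun w => ?_)
    exact ⟨fun h => h.2, fun h => ⟨mem_range.2 h.1.2.1, h⟩⟩

@[fun_prop] theorem near_pt' {α : Type} [Enc α] (j : ℕ) {f : α → Inst} {g h : α → ℕ} (hf : PT f)
    (hg : PT g) (hh : PT h) : PT fun x => dc (Near (f x) j (g x) (h x)) :=
  (near_pt j).comp (g := fun x => (f x, g x, h x)) (by fun_prop)

def NI (y : Inst) (u : ℕ) : Prop := ∃ w, w ∈ range y.1 ∧ Adj y u w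
def C (y : Inst) (u : ℕ) : Prop := ¬ u ∈ y.2.2.2 ∧ ∃ w, w ∈ range y.1 ∧ (¬ w ∈ y.2.2.2 ∧ Adj y u w)
noncomputable def sig (t : ℕ) (y : Inst) (u : ℕ) : Bool × List (Bool × Bool × Bool × Bool) :=
  (dc (C y u), y.2.2.2.map fun x =>
    (dc (u = x), dc (Near y 1 u x), dc (Near y (t + 2) u x), dc (Near y (t + 3) u x)))
noncomputable def P (t : ℕ) (y : Inst) : List ℕ := (range y.1).filter fun v =>
  dc (NI y v ∧ ∀ u, u ∈ range v → ¬ (NI y u ∧ sig t y u = sig t y v))
noncomputable def SS (t : ℕ) (y : Inst) (w : List ℕ) : List ℕ := (range y.1).filter fun s =>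
  dc (¬ NI y s ∨ ∃ i, i ∈ range (P t y).length ∧ (w.getD i 0 = 1 ∧ (P t y).getD i 0 = s))
noncomputable def W (t : ℕ) (z : Inst × ℕ) : Bool := dc (∃ w, w ∈ enumL 2 (P t z.1).length z.2 ∧
  ((SS t z.1 w).length < z.1.2.2.1 + 1 ∧ ∀ v, v ∈ range z.1.1 → ∃ s, s ∈ SS t z.1 w ∧
    Near z.1 (t + 3) s v))

theorem P_pt (t : ℕ) : PT (P t) := by unfold P sig C NI Adj; fun_prop
theorem W_pt (t : ℕ) : PT (W t) := by
  have := P_pt t
  unfold W SS NI Adj; fun_prop

variable {t : ℕ}

theorem P_len : (P t y).length ≤ 2 * 16 ^ y.2.2.2.length := by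
  rw [← toFinset_card_of_nodup (show (P t y).Nodup from nodup_range.filter _)]
  refine (Finset.card_le_card_of_injOn (t := (Finset.univ : Finset (Bool ×
    List.Vector (Bool × Bool × Bool × Bool) y.2.2.2.length))) (fun v => ((sig t y v).1,
    ⟨(sig t y v).2, by simp [sig]⟩)) (by simp)
      fun a p b q e => ?_).trans (by simp [card_vector])
  have e : sig t y a = sig t y b := by
    simp only [Prod.mk.injEq] at e
    exact Prod.ext e.1 (congrArg Subtype.val e.2)
  simp only [P, Finset.mem_coe, mem_toFinset, mem_filter, dc_iff, mem_range] at p q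
  rcases lt_trichotomy a b with k | k | k
  · exact absurd ⟨p.2.1, e⟩ (q.2.2 a k)
  · exact k
  · exact absurd ⟨q.2.1, e.symm⟩ (p.2.2 b k)

theorem rep {s : ℕ} (a : NI y s) : ∃ p ∈ P t y, sig t y p = sig t y s := by
  classical
  have h : ∃ p, NI y p ∧ sig t y p = sig t y s := ⟨s, a, rfl⟩
  obtain ⟨b, c⟩ := Nat.find_spec h
  refine ⟨_, mem_filter.2 ⟨?_, dc_iff.2 ⟨b, fun u m => c.symm ▸ Nat.find_min h (mem_range.1 m)⟩⟩, c⟩
  obtain ⟨w, -, d⟩ := b
  exact mem_range.2 d.1

theorem exch (h : Valid y) {s p : ℕ} (a : NI y s) (e : sig t y p = sig t y s)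
    (d : Near y (t + 3) s v) : Near y (t + 3) p v := by
  obtain ⟨-, -, K, hK⟩ := h
  have dd : ∀ {A B : Prop}, dc A = dc B → B → A := fun e b => dc_iff.1 (e ▸ dc_iff.2 b)
  simp only [sig, Prod.mk.injEq, map_inj_left] at e
  obtain ⟨e0, e⟩ := e
  have ck : ∀ u, C y u → ∃ k < y.1, k ∉ y.2.2.2 ∧ K k ∧ Near y 1 u k := fun u ⟨b, w, _, c, d⟩ => by
    by_cases f : K u
    · exact ⟨u, d.1, b, f, .inl rfl⟩
    · exact ⟨w, d.2.1, c, by_contra fun g => (hK u d.1 w d.2.1 b c).2 f g d, one d⟩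
  have nc : ∀ u w, u ∉ y.2.2.2 → ¬ C y u → Adj y u w → w ∈ y.2.2.2 := fun u w b c d =>
    by_contra fun f => c ⟨b, w, mem_range.2 d.2.1, f, d⟩
  by_cases b : s ∈ y.2.2.2
  · rwa [dd (e s b).1 rfl]
  by_cases c : C y s
  · by_cases f : v ∈ y.2.2.2
    · exact dd (e v f).2.2.2 d
    by_cases g : C y v
    · obtain ⟨k, k1, k2, k3, k4⟩ := ck p (dd e0 c)
      obtain ⟨l, l1, l2, l3, l4⟩ := ck v g
      have : Near y 1 k l := by
        by_cases o : k = l
        · exact .inl o
        · exact one ((hK k k1 l l1 k2 l2).1 k3 l3 o)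
      exact mono (by omega) (trans (trans k4 this) (symm l4))
    · obtain rfl | ⟨x, f, d⟩ := step (symm d)
      · exact absurd c g
      · exact trans (i := t + 2) (j := 1) (dd (e x (nc v x ‹_› g f)).2.2.1 (symm d)) (one (asy f))
  · obtain rfl | ⟨x, f, d⟩ := step d
    · obtain ⟨x, -, f⟩ := a
      exact mono (by omega) (trans (dd (e x (nc s x b c f)).2.1 (one f)) (one (asy f)))
    · exact mono (by omega) (trans (dd (e x (nc s x b c f)).2.1 (one f)) d)

theorem W_iff (h : Valid y) : W t (y, 2 ^ (P t y).length) = true ↔ Dom (t + 3) y := by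
  classical
  simp only [W, dc_iff, mem_range]
  constructor
  · rintro ⟨w, -, a, b⟩
    exact ⟨(SS t y w).toFinset, fun s m => mem_range.1 (mem_filter.1 (mem_toFinset.1 m)).1,
      (toFinset_card_le _).trans (by omega), fun v c => (b v c).imp fun s d => ⟨mem_toFinset.2 d.1, d.2⟩⟩
  · rintro ⟨S, a, b, c⟩
    have : ∀ s, ∃ p, (¬ NI y s → p = s) ∧ (NI y s → p ∈ P t y ∧ sig t y p = sig t y s) := fun s => by
      by_cases d : NI y s
      · obtain ⟨p, e⟩ := rep (t := t) d
        exact ⟨p, fun f => absurd d f, fun _ => e⟩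
      · exact ⟨s, fun _ => rfl, fun f => absurd f d⟩
    choose f f1 f2 using this
    have m : ∀ s, s ∈ SS t y ((P t y).map fun p => if p ∈ S.image f then 1 else 0) ↔
        s < y.1 ∧ (¬ NI y s ∨ s ∈ P t y ∧ s ∈ S.image f) := fun s => by
      simp only [SS, mem_filter, mem_range, dc_iff]
      refine and_congr_right fun _ => or_congr_right ⟨fun ⟨i, d, e, g⟩ => ?_, fun ⟨d, e⟩ => ?_⟩
      · rw [getD_eq_getElem _ _ d] at g
        rw [getD_eq_getElem _ _ (by simpa using d), getElem_map, g] at e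
        exact ⟨g ▸ getElem_mem d, by_contra fun k => by simp only [if_neg k] at e; omega⟩
      · obtain ⟨i, g, rfl⟩ := getElem_of_mem d
        exact ⟨i, g, by rw [getD_eq_getElem _ _ (by simpa using g), getElem_map, if_pos e],
          getD_eq_getElem _ _ g⟩
    refine ⟨(P t y).map fun p => if p ∈ S.image f then 1 else 0,
      mem_enumL le_rfl _ (by simp) fun a d => ?_, ?_, fun v d => ?_⟩
    · obtain ⟨p, -, rfl⟩ := mem_map.1 d
      split_ifs <;> omega
    · rw [← toFinset_card_of_nodup (show (SS t y _).Nodup from nodup_range.filter _)]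
      refine Nat.lt_succ_of_le (((Finset.card_le_card fun s d => ?_).trans
        (Finset.card_image_le (f := f))).trans b)
      obtain ⟨d, e | e⟩ := (m s).1 (mem_toFinset.1 d)
      · obtain ⟨u, g, k⟩ := c s d
        obtain rfl | ⟨x, k, -⟩ := step (symm k)
        · exact Finset.mem_image.2 ⟨s, g, f1 s e⟩
        · exact absurd ⟨x, mem_range.2 k.2.1, k⟩ e
      · exact e.2
    · obtain ⟨s, e, g⟩ := c v d
      by_cases k : NI y s
      · exact ⟨f s, (m _).2 ⟨mem_range.1 (mem_filter.1 (f2 s k).1).1,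
          .inr ⟨(f2 s k).1, Finset.mem_image_of_mem _ e⟩⟩, exch h k (f2 s k).2 g⟩
      · exact ⟨s, (m _).2 ⟨a s e, .inl k⟩, g⟩

theorem result : W1Hard (fun y => Valid y ∧ Dom 2 y) (fun y => y.2.2.2.length) ∧
    ∀ r ≥ 3, ∃ L : Inst → Prop, FPT L (fun y => y.2.2.2.length) ∧ ∀ y, Valid y → (L y ↔ Dom r y) := by
  refine ⟨w1, fun r a => ?_⟩
  obtain ⟨t, rfl⟩ := Nat.exists_eq_add_of_le' a
  have := P_pt t
  exact ⟨_, fpt_of_pad (fun y => (P t y).length) (by fun_prop) (fun k => 2 * 16 ^ k)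
    (Primrec.nat_mul.comp (.const 2) (prim_pow.comp (.const 16) .id)).to_comp (fun _ => P_len)
    (W t) (W_pt t) fun _ => .rfl, fun _ => W_iff⟩

end Pool.Agent.Results.MP_918064_lc.Dich
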